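import Pool.Agent.H.MP_3bea3b_an.G

open Filter Topology Metric Set MeasureTheory Complex
open Pool.Agent.H.MP_3bea3b_an

namespace Pool.Agent.H.MP_193109_an

theorem bdd {W : ℝ → ℝ} {f : ℂ → ℂ} {C : ℝ} (hW : Mo W)
    (ad : ∀ s t, 0 < s → s ≤ t → s * W t ≤ C * (t * W s)) {l : ℝ} (l0 : 0 < l)
    (l1 : l < 1) (geo : ∀ t, 0 < t → t ≤ 1 / 2 → W (l * t) ≤ W t / 2)
    (hd : DifferentiableOn ℂ f (ball 0 1)) (hB : Bw W f) : ∃ M, ∀ z ∈ ball (0 : ℂ) 1, ‖f z‖ ≤ M := by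
  obtain ⟨A, A0, hA⟩ := hB
  have C0 : 0 ≤ C := by nlinarith [ad 1 1 one_pos le_rfl, hW.pos 1 one_pos]
  have k : ∀ s, 0 < s → ∀ y ∈ closedBall (0 : ℂ) (1 - s), ∀ y' ∈ closedBall (0 : ℂ) (1 - s),
      ‖f y - f y'‖ ≤ A * C * (W s / s) * ‖y - y'‖ := fun s s0 y hy y' hy' => by
    have sb : closedBall (0 : ℂ) (1 - s) ⊆ ball 0 1 := closedBall_subset_ball (by linarith)
    refine (convex_closedBall _ _).norm_image_sub_le_of_norm_deriv_le
      (fun x hx => hd.differentiableAt (isOpen_ball.mem_nhds (sb hx))) (fun x hx => ?_) hy' hy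
    have h1 : s ≤ 1 - ‖x‖ := by linarith [mem_closedBall_zero_iff.1 hx]
    rw [← mul_div_assoc, le_div_iff₀ s0]
    refine le_of_mul_le_mul_left ?_ (s0.trans_le h1)
    nlinarith [mul_le_mul_of_nonneg_left (hA x (sb hx)) s0.le, mul_le_mul_of_nonneg_left (ad _ _ s0 h1) A0]
  have m : ∀ z ∈ ball (0 : ℂ) 1, ∀ s s' : ℝ, s ≤ s' → s' ≤ 1 → ((1 - s' : ℝ) * z : ℂ) ∈
      closedBall (0 : ℂ) (1 - s) := fun z hz s s' h1 h2 => by
    rw [mem_closedBall_zero_iff, norm_mul, norm_real, Real.norm_of_nonneg (by linarith)]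
    nlinarith [mem_ball_zero_iff.1 hz, norm_nonneg z]
  have r : ∀ d, 0 < d → d ≤ 1 / 2 → ∀ z ∈ ball (0 : ℂ) 1,
      ‖f z - f ((1 - d : ℝ) * z)‖ ≤ A * C / l * W d := fun d d0 d1 z hz => by
    have p1 : ∀ n : ℕ, l ^ n * d ≤ d := fun n => mul_le_of_le_one_left d0.le (pow_le_one₀ l0.le l1.le)
    have g : ∀ n : ℕ, W (l ^ n * d) ≤ W d / 2 ^ n := fun n => by
      induction n with
      | zero => simp
      | succ n ih =>
        rw [pow_succ', mul_assoc, pow_succ, ← div_div]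
        linarith [geo (l ^ n * d) (by positivity) ((p1 n).trans d1)]
    have s : ∀ n : ℕ, ‖f ((1 - l ^ n * d : ℝ) * z) - f ((1 - d : ℝ) * z)‖ ≤
        A * C / l * (W d - W d / 2 ^ n) := fun n => by
      induction n with
      | zero => simp
      | succ n ih =>
        have q : l ^ (n + 1) * d ≤ l ^ n * d := by
          rw [pow_succ', mul_assoc]; exact mul_le_of_le_one_left (by positivity) l1.le
        have h1 := k _ (by positivity) _ (m z hz _ _ le_rfl (by linarith [p1 (n + 1)])) _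
          (m z hz _ _ q (by linarith [p1 n]))
        have h2 : ‖((1 - l ^ (n + 1) * d : ℝ) * z : ℂ) - (1 - l ^ n * d : ℝ) * z‖ ≤ l ^ n * d := by
          rw [← sub_mul, ← ofReal_sub, norm_mul, norm_real, Real.norm_of_nonneg (by linarith)]
          nlinarith [mem_ball_zero_iff.1 hz, norm_nonneg z, show 0 < l ^ (n + 1) * d by positivity]
        have h3 := h1.trans (mul_le_mul (mul_le_mul_of_nonneg_left (div_le_div_of_nonneg_right (g _)
          (by positivity)) (by positivity)) h2 (norm_nonneg _) (by have := hW.pos d d0; positivity))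
        refine (norm_sub_le_norm_sub_add_norm_sub _ _ _).trans ((add_le_add h3 ih).trans_eq ?_)
        field_simp
        ring
    have t : Tendsto (fun n : ℕ => ((1 - l ^ n * d : ℝ) * z : ℂ)) atTop (𝓝 z) := by
      simpa using ((continuous_ofReal.tendsto _).comp (((tendsto_pow_atTop_nhds_zero_of_lt_one l0.le
        l1).mul_const d).const_sub 1)).mul_const z
    refine le_of_tendsto' (((hd.continuousOn.continuousAt (isOpen_ball.mem_nhds hz)).tendsto.comp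
      t).sub_const _).norm fun n => (s n).trans (mul_le_mul_of_nonneg_left (sub_le_self _ ?_) (by positivity))
    have := hW.pos d d0
    positivity
  obtain ⟨M, hM⟩ := (isCompact_closedBall (0 : ℂ) (1 - 1 / 2)).exists_bound_of_continuousOn
    (hd.continuousOn.mono (closedBall_subset_ball (by norm_num)))
  exact ⟨_, fun z hz => (norm_le_norm_add_norm_sub' _ _).trans (add_le_add
    (hM _ (m z hz _ _ le_rfl (by norm_num))) (r (1 / 2) one_half_pos le_rfl z hz))⟩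

lemma tr {ω : ℝ → ℝ} (hm : MonotoneOn ω (Ioo 0 1)) (hp : ∀ t ∈ Ioo (0 : ℝ) 1, 0 < ω t) {g : ℂ → ℝ}
    {S : ℂ → Prop} {C r : ℝ} (hg : ContinuousOn g (ball 0 1)) (C0 : 0 < C) (r1 : r < 1)
    (h : ∀ z, r < ‖z‖ → ‖z‖ < 1 → S z → g z ≤ C * ω (1 - ‖z‖)) :
    ∃ C, 0 ≤ C ∧ ∀ z ∈ ball (0 : ℂ) 1, S z → g z ≤ C * ω (min (1 - ‖z‖) (1 / 2)) := by
  have p : 0 < 1 - max r (1 / 2) := sub_pos.2 (max_lt r1 one_half_lt_one)
  obtain ⟨M, hM⟩ := (isCompact_closedBall (0 : ℂ) (max r (1 / 2))).exists_bound_of_continuousOn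
    (hg.mono (closedBall_subset_ball (sub_pos.1 p)))
  have q := (mo hm hp).pos _ p
  refine ⟨C + |M| / ω (min (1 - max r (1 / 2)) (1 / 2)), by positivity, fun z hz e => ?_⟩
  have z1 := mem_ball_zero_iff.1 hz
  have q1 := (mo hm hp).pos _ (sub_pos.2 z1)
  rw [add_mul]
  rcases le_or_gt ‖z‖ (max r (1 / 2)) with a | a
  · refine le_add_of_nonneg_of_le (by positivity) ((le_abs_self _).trans ((hM z
      (mem_closedBall_zero_iff.2 a)).trans ((le_abs_self M).trans ?_)))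
    rw [div_mul_eq_mul_div, le_div_iff₀ q]
    exact mul_le_mul_of_nonneg_left ((mo hm hp).mono _ _ p (sub_le_sub_left a 1)) (abs_nonneg M)
  · rw [max_lt_iff] at a
    refine le_add_of_le_of_nonneg ?_ (by positivity)
    rw [min_eq_left (by linarith [a.2])]
    exact h z a.1 z1 e

theorem bloch : ∃ F Θ : ℂ → ℂ, DifferentiableOn ℂ F (ball 0 1) ∧
    (∃ C, ∀ z ∈ ball (0 : ℂ) 1, (1 - ‖z‖) * ‖deriv F z‖ ≤ C) ∧ DifferentiableOn ℂ Θ (ball 0 1) ∧
    (∀ z ∈ ball (0 : ℂ) 1, ‖Θ z‖ ≤ 1) ∧ Rad Θ ∧ (∃ C, ∀ z ∈ ball (0 : ℂ) 1, ‖Θ z‖ < 1 / 200 → ‖F z‖ ≤ C) ∧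
      ∀ A, ∃ z ∈ ball (0 : ℂ) 1, ‖Θ z‖ < 31251 / 31252 ∧ A < ‖F z‖ := by
  obtain ⟨V, hV⟩ : ∃ V : ℝ → ℝ, ∀ t, V t = 1 - Real.log (min t 1) := ⟨_, fun _ => rfl⟩
  have v1 : ∀ t, 0 < t → 1 ≤ V t := fun t t0 => by
    linarith [hV t, Real.log_nonpos (lt_min t0 one_pos).le (min_le_right t 1)]
  have v0 : ∀ t, 0 < t → 0 < V t := fun t t0 => one_pos.trans_le (v1 t t0)
  have v2 : ∀ t, t ≤ 1 → V t = 1 - Real.log t := fun t t1 => by rw [hV, min_eq_left t1]
  have ad : ∀ s t, 0 < s → s ≤ t → t ≤ 1 → s * (V t)⁻¹ ≤ 2 * (t * (V s)⁻¹) := fun s t s0 s1 t1 => by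
    have t0 := s0.trans_le s1
    have e := Real.log_le_sub_one_of_pos (div_pos t0 s0)
    rw [Real.log_div t0.ne' s0.ne', le_sub_iff_add_le, le_div_iff₀ s0] at e
    rw [← mul_assoc, ← div_eq_mul_inv, ← div_eq_mul_inv, div_le_div_iff₀ (v0 t t0) (v0 s s0)]
    nlinarith [v1 t t0, v2 t t1, v2 s (s1.trans t1)]
  obtain ⟨f, Θ, f1, f2, ⟨B, B0, f3⟩, a1, a2, a3, ⟨T, T0, a4⟩, a5⟩ := cex (W := fun t => (V t)⁻¹)
    ⟨fun t t0 => inv_pos.2 (v0 t t0), fun s t s0 s1 => inv_anti₀ (v0 t (s0.trans_le s1)) (by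
      rw [hV, hV]
      exact sub_le_sub_left (Real.log_le_log (lt_min s0 one_pos) (min_le_min_right 1 s1)) 1)⟩
    (fun c c0 => ⟨Real.exp (-c⁻¹), Real.exp_pos _, by
      rw [v2 _ (Real.exp_le_one_iff.2 (neg_nonpos.2 (inv_pos.2 c0).le)), Real.log_exp]
      exact inv_lt_of_inv_lt₀ c0 (by linarith)⟩) one_half_pos (fun t t0 t1 => by
        have := ad t 1 t0 t1 le_rfl
        rw [v2 1 le_rfl] at this
        simp only [Real.log_one, sub_zero, inv_one] at this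
        linarith) ad fun l l0 l1 => ⟨l / 2, by positivity, by linarith, by
      have := v0 _ (half_pos l0)
      rw [div_eq_mul_inv, ← mul_inv]
      refine inv_strictAnti₀ (v0 _ (by positivity)) ?_
      rw [v2 _ (by nlinarith), v2 _ (by linarith), Real.log_mul l0.ne' (half_pos l0).ne']
      linarith [Real.log_le_log (half_pos l0) (half_le_self l0.le)]⟩
  have s : ∀ z ∈ ball (0 : ℂ) 1, 1 - z ∈ slitPlane := fun z hz => by
    simpa [sub_eq_add_neg] using mem_slitPlane_of_norm_lt_one (z := -z) (by simpa using hz)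
  have d : ∀ z ∈ ball (0 : ℂ) 1, HasDerivAt (fun z => 1 - log (1 - z)) (-(-1 / (1 - z))) z := fun z hz =>
    (((hasDerivAt_id z).const_sub 1).clog (s z hz)).const_sub 1
  have n : ∀ z : ℂ, 1 - ‖z‖ ≤ ‖1 - z‖ := fun z => by simpa using norm_sub_norm_le 1 z
  have g : ∀ z ∈ ball (0 : ℂ) 1, (V (1 - ‖z‖))⁻¹ * ‖1 - log (1 - z)‖ ≤ 6 := fun z hz => by
    have z1 := sub_pos.2 (mem_ball_zero_iff.1 hz)
    have e1 := Real.log_le_log z1 (n z)
    have e2 := Real.log_le_sub_one_of_pos (z1.trans_le (n z))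
    have e3 := norm_sub_le 1 z
    have e4 := v2 _ (sub_le_self 1 (norm_nonneg z))
    have e5 := v1 _ z1
    have e6 := norm_sub_le 1 (log (1 - z))
    have e7 := norm_le_abs_re_add_abs_im (log (1 - z))
    have e8 : |Real.log ‖1 - z‖| ≤ V (1 - ‖z‖) := abs_le.2 ⟨by linarith, by
      linarith [norm_one (α := ℂ)]⟩
    rw [log_re, log_im] at e7
    rw [inv_mul_le_iff₀ (v0 _ z1)]
    linarith [abs_arg_le_pi (1 - z), Real.pi_le_four, norm_one (α := ℂ)]
  refine ⟨fun z => f z * (1 - log (1 - z)), Θ, f1.mul fun z hz =>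
    (d z hz).differentiableAt.differentiableWithinAt, ⟨B * 6 + 2, fun z hz => ?_⟩, a1, a2, a3,
      ⟨T * 6, fun z hz e => ?_⟩, fun A => ?_⟩
  · have z1 := sub_pos.2 (mem_ball_zero_iff.1 hz)
    rw [((f1.differentiableAt (isOpen_ball.mem_nhds hz)).hasDerivAt.fun_mul (d z hz)).deriv]
    refine (mul_le_mul_of_nonneg_left (norm_add_le _ _) z1.le).trans ?_
    rw [norm_mul, norm_mul, norm_neg, norm_div, norm_neg, norm_one, mul_add, ← mul_assoc]
    refine add_le_add ((mul_le_mul_of_nonneg_right (f3 z hz) (norm_nonneg _)).trans ?_) ?_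
    · rw [mul_assoc]
      exact mul_le_mul_of_nonneg_left (g z hz) B0
    · rw [mul_left_comm, mul_one_div, ← mul_one 2]
      exact mul_le_mul (f2 z hz) ((div_le_one (z1.trans_le (n z))).2 (n z)) (by positivity) zero_le_two
  · rw [norm_mul]
    refine (mul_le_mul_of_nonneg_right (a4 z hz e) (norm_nonneg _)).trans ?_
    rw [mul_assoc]
    exact mul_le_mul_of_nonneg_left (g z hz) T0
  obtain ⟨t, t0, t1, e1, e2⟩ := a5 A
  refine ⟨_, mul_one ((1 - t : ℝ) : ℂ) ▸ (pt t0 t1 norm_one).2, e1, ?_⟩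
  rw [norm_mul, ofReal_sub 1 t, ofReal_one, sub_sub_self, ← ofReal_log t0.le, ← ofReal_one, ← ofReal_sub,
    ← ofReal_sub, ← v2 t t1, norm_real, Real.norm_of_nonneg (v0 t t0).le]
  exact (mul_inv_lt_iff₀ (v0 t t0)).1 e2

end Pool.Agent.H.MP_193109_an
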